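import Mathlib
import Pool.Agent.TH905.PC.Fin

set_option autoImplicit false

/-!
# Compatible orthogonal projections of a projective plane (helper file)
-/

namespace Pool.Agent.E8helper69.PP

open Matrix

/-- the vector with rational entries -/
def qv {X : Type} (x : X → ℤ) : X → ℚ := fun i => (x i : ℚ)

theorem qv_inj {X : Type} {x y : X → ℤ} (h : qv x = qv y) : x = y := by
  funext i
  have := congrFun h i
  simp only [qv] at this
  exact_mod_cast this

section lat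

variable {X : Type} [Fintype X]

/-- the lattice of the integral vectors fixed by `E` -/
def lat (E : Matrix X X ℚ) : Submodule ℤ (X → ℤ) where
  carrier := {x | E *ᵥ (fun i => (x i : ℚ)) = fun i => (x i : ℚ)}
  add_mem' := by
    intro x y hx hy
    have hx' : E *ᵥ (fun i => (x i : ℚ)) = fun i => (x i : ℚ) := hx
    have hy' : E *ᵥ (fun i => (y i : ℚ)) = fun i => (y i : ℚ) := hy
    change E *ᵥ (fun i => ((x + y) i : ℚ)) = fun i => (((x + y) i : ℤ) : ℚ)
    have e : (fun i => (((x + y) i : ℤ) : ℚ)) = (fun i => (x i : ℚ)) + fun i => (y i : ℚ) := by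
      funext i; simp
    rw [e, mulVec_add, hx', hy']
  zero_mem' := by
    change E *ᵥ (fun i => (((0 : X → ℤ) i : ℤ) : ℚ)) = fun i => (((0 : X → ℤ) i : ℤ) : ℚ)
    have e : (fun i : X => (((0 : X → ℤ) i : ℤ) : ℚ)) = 0 := by funext i; simp
    rw [e, mulVec_zero]
  smul_mem' := by
    intro c x hx
    have hx' : E *ᵥ (fun i => (x i : ℚ)) = fun i => (x i : ℚ) := hx
    change E *ᵥ (fun i => (((c • x) i : ℤ) : ℚ)) = fun i => (((c • x) i : ℤ) : ℚ)
    have e : (fun i => (((c • x) i : ℤ) : ℚ)) = (c : ℚ) • (fun i => (x i : ℚ)) := by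
      funext i; simp
    rw [e, mulVec_smul, hx']

theorem mem_lat {E : Matrix X X ℚ} {x : X → ℤ} : x ∈ lat E ↔ E *ᵥ qv x = qv x := Iff.rfl

/-- the matrix with the rows `b i` -/
def bm {E : Matrix X X ℚ} {r : ℕ} (b : Fin r → lat E) : Matrix (Fin r) X ℤ :=
  Matrix.of fun i x => (b i : X → ℤ) x

theorem bm_rep {E : Matrix X X ℚ} {r : ℕ} (b : Module.Basis (Fin r) ℤ (lat E)) {x : X → ℤ}
    (hx : x ∈ lat E) : ∃ c : Fin r → ℤ, c ᵥ* bm b = x := by
  refine ⟨fun i => b.repr ⟨x, hx⟩ i, ?_⟩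
  have h := b.sum_repr ⟨x, hx⟩
  have h1 := congrArg (fun z : lat E => (z : X → ℤ)) h
  simp only [Submodule.coe_sum, Submodule.coe_smul] at h1
  refine Eq.trans ?_ h1
  funext j
  simp [vecMul, dotProduct, bm, Finset.sum_apply]

theorem bm_inj {E : Matrix X X ℚ} {r : ℕ} (b : Module.Basis (Fin r) ℤ (lat E)) {c d : Fin r → ℤ}
    (h : c ᵥ* bm b = d ᵥ* bm b) : c = d := by
  have e : ∀ c : Fin r → ℤ, ((∑ i, c i • b i : lat E) : X → ℤ) = c ᵥ* bm b := by
    intro c
    simp only [Submodule.coe_sum, Submodule.coe_smul]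
    funext j
    simp [vecMul, dotProduct, bm, Finset.sum_apply]
  have h1 : (∑ i, c i • b i : lat E) = ∑ i, d i • b i := by
    apply Subtype.ext
    rw [e, e, h]
  have h2 := congrArg (fun z => ⇑(b.repr z)) h1
  simp only [Module.Basis.repr_sum_self] at h2
  exact h2

theorem vec_mem {E : Matrix X X ℚ} {r : ℕ} (b : Module.Basis (Fin r) ℤ (lat E)) (c : Fin r → ℤ) :
    c ᵥ* bm b ∈ lat E := by
  have e : ((∑ i, c i • b i : lat E) : X → ℤ) = c ᵥ* bm b := by
    simp only [Submodule.coe_sum, Submodule.coe_smul]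
    funext j
    simp [vecMul, dotProduct, bm, Finset.sum_apply]
  rw [← e]
  exact Submodule.coe_mem _

/-- the Gram matrix of a basis -/
def gr {E : Matrix X X ℚ} {r : ℕ} (b : Fin r → lat E) : Matrix (Fin r) (Fin r) ℤ := bm b * (bm b)ᵀ

theorem gr_symm {E : Matrix X X ℚ} {r : ℕ} (b : Fin r → lat E) : (gr b)ᵀ = gr b := by
  unfold gr
  rw [transpose_mul, transpose_transpose]

/-- `E` is symmetric and idempotent, and `m E` is the integral matrix `F` -/
structure Pr (E : Matrix X X ℚ) (m : ℕ) (F : Matrix X X ℤ) : Prop where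
  symm : Eᵀ = E
  idem : E * E = E
  int : ∀ i j, (F i j : ℚ) = m * E i j
  pos : m ≠ 0

theorem Pr.fsymm {E : Matrix X X ℚ} {m : ℕ} {F : Matrix X X ℤ} (h : Pr E m F) : Fᵀ = F := by
  ext i j
  have h1 := h.int j i
  have h2 := h.int i j
  have h3 : E j i = E i j := congrFun (congrFun h.symm i) j
  rw [h3, ← h2] at h1
  rw [transpose_apply]
  exact_mod_cast h1

theorem Pr.fvec {E : Matrix X X ℚ} {m : ℕ} {F : Matrix X X ℤ} (h : Pr E m F) (x : X → ℤ) :
    qv (F *ᵥ x) = (m : ℚ) • (E *ᵥ qv x) := by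
  funext i
  simp only [qv, mulVec, dotProduct, Pi.smul_apply, smul_eq_mul, Finset.mul_sum]
  push_cast
  refine Finset.sum_congr rfl fun j _ => ?_
  rw [h.int]
  ring

theorem Pr.fmem {E : Matrix X X ℚ} {m : ℕ} {F : Matrix X X ℤ} (h : Pr E m F) (x : X → ℤ) :
    F *ᵥ x ∈ lat E := by
  rw [mem_lat, h.fvec, mulVec_smul, mulVec_mulVec, h.idem]

theorem Pr.fix {E : Matrix X X ℚ} {m : ℕ} {F : Matrix X X ℤ} (h : Pr E m F) {x : X → ℤ}
    (hx : x ∈ lat E) : F *ᵥ x = (m : ℤ) • x := by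
  apply qv_inj
  rw [h.fvec, mem_lat.1 hx]
  funext i
  simp [qv]

theorem gr_dot {E : Matrix X X ℚ} {r : ℕ} (b : Fin r → lat E) (c d : Fin r → ℤ) :
    (c ᵥ* bm b) ⬝ᵥ (d ᵥ* bm b) = (c ᵥ* gr b) ⬝ᵥ d := by
  unfold gr
  have e : d ᵥ* bm b = (bm b)ᵀ *ᵥ d := (mulVec_transpose _ _).symm
  rw [e, dotProduct_mulVec, vecMul_vecMul]

/-- primes which do not divide `m` do not divide the discriminant -/
theorem Pr.not_dvd {E : Matrix X X ℚ} {m : ℕ} {F : Matrix X X ℤ} (h : Pr E m F) {r : ℕ}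
    (b : Module.Basis (Fin r) ℤ (lat E)) {q : ℕ} (hq : q.Prime) (hqm : ¬ q ∣ m) :
    ¬ (q : ℤ) ∣ (gr b).det := by
  classical
  intro hd
  have : Fact q.Prime := ⟨hq⟩
  have h0 : ((gr b).map (Int.castRingHom (ZMod q))).det = 0 := by
    rw [← RingHom.mapMatrix_apply, ← RingHom.map_det]
    exact (ZMod.intCast_zmod_eq_zero_iff_dvd _ q).2 hd
  obtain ⟨v, hv0, hv⟩ := Matrix.exists_vecMul_eq_zero_iff.2 h0
  have hl : ∀ i, ∃ c : ℤ, (c : ZMod q) = v i := fun i => ZMod.intCast_surjective (v i)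
  choose c hc using hl
  have hcg : ∀ j, (q : ℤ) ∣ (c ᵥ* gr b) j := by
    intro j
    rw [← ZMod.intCast_zmod_eq_zero_iff_dvd]
    have h1 := congrFun hv j
    rw [Pi.zero_apply] at h1
    rw [← h1]
    simp only [vecMul, dotProduct, map_apply]
    push_cast
    refine Finset.sum_congr rfl fun i _ => ?_
    rw [hc]
    rfl
  set x : X → ℤ := c ᵥ* bm b with hx
  have hxm : x ∈ lat E := vec_mem b c
  have hdot : ∀ y ∈ lat E, (q : ℤ) ∣ x ⬝ᵥ y := by
    intro y hy
    obtain ⟨d, rfl⟩ := bm_rep b hy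
    rw [hx, gr_dot]
    exact Finset.dvd_sum fun j _ => (hcg j).mul_right _
  have hxq : ∀ i, (q : ℤ) ∣ x i := by
    intro i
    have h1 := hdot _ (h.fmem (Pi.single i 1))
    have h2 : x ⬝ᵥ (F *ᵥ (Pi.single i 1)) = (m : ℤ) * x i := by
      rw [dotProduct_mulVec, ← mulVec_transpose, h.fsymm, h.fix hxm]
      simp
    rw [h2] at h1
    rcases (Nat.prime_iff_prime_int.1 hq).dvd_or_dvd h1 with h3 | h3
    · exact absurd (by exact_mod_cast h3) hqm
    · exact h3
  choose z hz using hxq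
  have hz' : x = (q : ℤ) • z := by
    funext i; rw [hz i]; simp
  have hq0 : (q : ℚ) ≠ 0 := by exact_mod_cast hq.ne_zero
  have hzm : z ∈ lat E := by
    rw [mem_lat]
    have h1 := mem_lat.1 hxm
    have h2 : qv x = (q : ℚ) • qv z := by
      rw [hz']; funext i; simp [qv]
    rw [h2, mulVec_smul] at h1
    exact smul_right_injective _ hq0 h1
  obtain ⟨d, hd'⟩ := bm_rep b hzm
  have h3 : c ᵥ* bm b = ((q : ℤ) • d) ᵥ* bm b := by
    rw [smul_vecMul, hd', ← hz', hx]
  have h4 := bm_inj b h3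
  apply hv0
  funext i
  rw [← hc i, h4]
  simp

theorem gr_map {E : Matrix X X ℚ} {r : ℕ} (b : Fin r → lat E) :
    0 ≤ (gr b).det := by
  have h1 : ((gr b).det : ℝ) = (((bm b).map (fun z : ℤ => (z : ℝ))) *
      ((bm b).map (fun z : ℤ => (z : ℝ)))ᵀ).det := by
    have h2 : ((bm b).map (fun z : ℤ => (z : ℝ))) * ((bm b).map (fun z : ℤ => (z : ℝ)))ᵀ =
        (gr b).map (Int.castRingHom ℝ) := by
      unfold gr
      rw [Matrix.map_mul]
      rfl
    rw [h2, ← RingHom.mapMatrix_apply, ← RingHom.map_det]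
    rfl
  have h3 : 0 ≤ (((bm b).map (fun z : ℤ => (z : ℝ))) *
      ((bm b).map (fun z : ℤ => (z : ℝ)))ᵀ).det := by
    have := (Matrix.posSemidef_self_mul_conjTranspose ((bm b).map (fun z : ℤ => (z : ℝ)))).det_nonneg
    rwa [Matrix.conjTranspose_eq_transpose_of_trivial] at this
  rw [← h1] at h3
  exact_mod_cast h3

end lat

section inc

variable {X Y : Type} [Fintype X] [Fintype Y]

/-- the properties of the incidence matrix of a plane of order `n` -/
structure Inc [DecidableEq X] [DecidableEq Y] (N : Matrix X Y ℤ) (n : ℕ) : Prop where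
  row : N * Nᵀ = (n : ℤ) • (1 : Matrix X X ℤ) + Matrix.of fun _ _ => 1
  col : Nᵀ * N = (n : ℤ) • (1 : Matrix Y Y ℤ) + Matrix.of fun _ _ => 1
  rs : ∀ x, ∑ y, N x y = (n : ℤ) + 1
  cs : ∀ y, ∑ x, N x y = (n : ℤ) + 1
  cx : (Fintype.card X : ℤ) = n ^ 2 + n + 1
  cy : (Fintype.card Y : ℤ) = n ^ 2 + n + 1
  npos : 0 < n

theorem Inc.dual [DecidableEq X] [DecidableEq Y] {N : Matrix X Y ℤ} {n : ℕ} (h : Inc N n) :
    Inc Nᵀ n where
  row := by rw [transpose_transpose]; exact h.col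
  col := by rw [transpose_transpose]; exact h.row
  rs := h.cs
  cs := h.rs
  cx := h.cy
  cy := h.cx
  npos := h.npos

/-- `E N = N E'` -/
def Comp (E : Matrix X X ℚ) (E' : Matrix Y Y ℚ) (N : Matrix X Y ℤ) : Prop :=
  E * N.map (fun z : ℤ => (z : ℚ)) = N.map (fun z : ℤ => (z : ℚ)) * E'

theorem Comp.dual {E : Matrix X X ℚ} {E' : Matrix Y Y ℚ} {N : Matrix X Y ℤ} (h : Comp E E' N)
    (hE : Eᵀ = E) (hE' : E'ᵀ = E') : Comp E' E Nᵀ := by
  have h1 := congrArg Matrix.transpose h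
  rw [transpose_mul, transpose_mul, hE, hE'] at h1
  exact h1.symm

omit [Fintype Y] in
theorem qv_mul (N : Matrix X Y ℤ) (x : X → ℤ) :
    qv (x ᵥ* N) = qv x ᵥ* N.map (fun z : ℤ => (z : ℚ)) := by
  funext j
  simp only [qv, vecMul, dotProduct, map_apply]
  push_cast
  rfl

theorem Comp.mem {E : Matrix X X ℚ} {E' : Matrix Y Y ℚ} {N : Matrix X Y ℤ} (h : Comp E E' N)
    (hE : Eᵀ = E) (hE' : E'ᵀ = E') {x : X → ℤ} (hx : x ∈ lat E) : x ᵥ* N ∈ lat E' := by
  rw [mem_lat] at hx ⊢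
  have h1 : qv x ᵥ* E = qv x := by rw [← mulVec_transpose, hE, hx]
  rw [qv_mul, ← vecMul_transpose, hE', vecMul_vecMul, ← h, ← vecMul_vecMul, h1]

/-- the matrix of the map between the lattices -/
theorem Comp.mat {E : Matrix X X ℚ} {E' : Matrix Y Y ℚ} {N : Matrix X Y ℤ} (h : Comp E E' N)
    (hE : Eᵀ = E) (hE' : E'ᵀ = E') {r r' : ℕ} (b : Fin r → lat E)
    (b' : Module.Basis (Fin r') ℤ (lat E')) :
    ∃ C : Matrix (Fin r) (Fin r') ℤ, bm b * N = C * bm b' := by
  have h1 : ∀ i, ∃ c : Fin r' → ℤ, c ᵥ* bm b' = (b i : X → ℤ) ᵥ* N := fun i =>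
    bm_rep b' (h.mem hE hE' (b i).2)
  choose c hc using h1
  refine ⟨Matrix.of c, ?_⟩
  ext i j
  have h2 := congrFun (hc i) j
  rw [mul_apply, mul_apply]
  exact h2.symm

/-- the vector of the sums of the entries of the vectors of the basis -/
def sv {E : Matrix X X ℚ} {r : ℕ} (b : Fin r → lat E) : Fin r → ℤ := fun i => ∑ x, bm b i x

theorem gram_eq [DecidableEq X] [DecidableEq Y] {E : Matrix X X ℚ} {E' : Matrix Y Y ℚ}
    {N : Matrix X Y ℤ} {n : ℕ} (hN : Inc N n)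
    {r r' : ℕ} (b : Fin r → lat E) (b' : Fin r' → lat E')
    {C : Matrix (Fin r) (Fin r') ℤ} (hC : bm b * N = C * bm b') :
    C * gr b' * Cᵀ = (n : ℤ) • gr b + Matrix.of fun i j => sv b i * sv b j := by
  have h1 : C * gr b' * Cᵀ = bm b * (N * Nᵀ) * (bm b)ᵀ := by
    have : C * gr b' * Cᵀ = (C * bm b') * (C * bm b')ᵀ := by
      unfold gr
      rw [transpose_mul]
      simp only [Matrix.mul_assoc]
    rw [this, ← hC, transpose_mul]
    simp only [Matrix.mul_assoc]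
  rw [h1, hN.row, Matrix.mul_add, Matrix.add_mul, Matrix.mul_smul, Matrix.mul_one, Matrix.smul_mul]
  congr 1
  ext i j
  simp only [mul_apply, of_apply, transpose_apply, mul_one, sv]
  rw [Finset.sum_mul_sum, Finset.sum_comm]
  simp only [Finset.sum_mul]

/-! ### The vector of ones -/

theorem Inc.rowQ [DecidableEq X] [DecidableEq Y] {N : Matrix X Y ℤ} {n : ℕ} (h : Inc N n) :
    N.map (fun z : ℤ => (z : ℚ)) * (N.map (fun z : ℤ => (z : ℚ)))ᵀ =
      (n : ℚ) • (1 : Matrix X X ℚ) + Matrix.of fun _ _ => 1 := by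
  ext i j
  have h1 := congrFun (congrFun h.row i) j
  simp only [mul_apply, transpose_apply, Matrix.map_apply, Matrix.add_apply, Matrix.smul_apply,
    smul_eq_mul, of_apply] at h1 ⊢
  have h2 := congrArg (fun z : ℤ => (z : ℚ)) h1
  push_cast at h2
  rw [h2]
  by_cases hij : i = j
  · subst hij; simp
  · simp [one_apply_ne hij]

theorem ones [DecidableEq X] [DecidableEq Y] {E : Matrix X X ℚ} {E' : Matrix Y Y ℚ}
    {N : Matrix X Y ℤ} {n : ℕ} (hN : Inc N n) (h : Comp E E' N) (hE : Eᵀ = E) (hE' : E'ᵀ = E')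
    (hi : E * E = E) :
    ∃ c : ℚ, (c = 0 ∨ c = 1) ∧ (∀ x, ∑ y, E x y = c) := by
  have h1 : E * (N.map (fun z : ℤ => (z : ℚ)) * (N.map (fun z : ℤ => (z : ℚ)))ᵀ) =
      (N.map (fun z : ℤ => (z : ℚ)) * (N.map (fun z : ℤ => (z : ℚ)))ᵀ) * E := by
    have h2 : E' * (N.map (fun z : ℤ => (z : ℚ)))ᵀ = (N.map (fun z : ℤ => (z : ℚ)))ᵀ * E := by
      have := congrArg Matrix.transpose h
      rw [transpose_mul, transpose_mul, hE, hE'] at this
      exact this.symm
    rw [← Matrix.mul_assoc, h, Matrix.mul_assoc, h2, Matrix.mul_assoc]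
  rw [hN.rowQ, Matrix.mul_add, Matrix.add_mul, Matrix.mul_smul, Matrix.mul_one, Matrix.smul_mul,
    Matrix.one_mul, add_right_inj] at h1
  have h2 : ∀ i j, ∑ y, E i y = ∑ x, E j x := by
    intro i j
    have h3 := congrFun (congrFun h1 i) j
    simp only [mul_apply, of_apply, mul_one, one_mul] at h3
    rw [h3]
    refine Finset.sum_congr rfl fun x _ => ?_
    exact congrFun (congrFun hE j) x
  have hc : 0 < Fintype.card X := by
    have := hN.cx
    have h3 : (0 : ℤ) < Fintype.card X := by rw [this]; positivity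
    exact_mod_cast h3
  obtain ⟨x0⟩ := Fintype.card_pos_iff.1 hc
  set c := ∑ y, E x0 y with hcd
  refine ⟨c, ?_, fun x => h2 x x0⟩
  have h3 : c * c = c := by
    have h4 : ∑ y, (E * E) x0 y = ∑ y, E x0 y := by rw [hi]
    simp only [mul_apply] at h4
    rw [Finset.sum_comm] at h4
    simp only [← Finset.mul_sum] at h4
    rw [Finset.sum_congr rfl (fun x _ => by rw [h2 x x0]), ← Finset.sum_mul] at h4
    exact h4
  by_cases h4 : c = 0
  · exact Or.inl h4
  · exact Or.inr (mul_left_cancel₀ h4 (by rw [h3, mul_one]))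

theorem ones_same [DecidableEq X] [DecidableEq Y] {E : Matrix X X ℚ} {E' : Matrix Y Y ℚ}
    {N : Matrix X Y ℤ} {n : ℕ} (hN : Inc N n) (h : Comp E E' N) {c c' : ℚ}
    (hc : ∀ x, ∑ y, E x y = c) (hc' : ∀ x, ∑ y, E' x y = c') : c = c' := by
  have hX : 0 < Fintype.card X := by
    have := hN.cx
    have h3 : (0 : ℤ) < Fintype.card X := by rw [this]; positivity
    exact_mod_cast h3
  obtain ⟨x0⟩ := Fintype.card_pos_iff.1 hX
  have hrs : ∀ x, ∑ y, (N x y : ℚ) = (n : ℚ) + 1 := by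
    intro x
    have := hN.rs x
    exact_mod_cast this
  have h1 : ∑ y, (E * N.map (fun z : ℤ => (z : ℚ))) x0 y =
      ∑ y, (N.map (fun z : ℤ => (z : ℚ)) * E') x0 y := by
    unfold Comp at h
    rw [h]
  have h2 : ∑ y, (E * N.map (fun z : ℤ => (z : ℚ))) x0 y = c * (n + 1) := by
    simp only [mul_apply, Matrix.map_apply]
    rw [Finset.sum_comm]
    simp only [← Finset.mul_sum, hrs]
    rw [← Finset.sum_mul, hc]
  have h3 : ∑ y, (N.map (fun z : ℤ => (z : ℚ)) * E') x0 y = c' * (n + 1) := by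
    simp only [mul_apply, Matrix.map_apply]
    rw [Finset.sum_comm]
    simp only [← Finset.mul_sum, hc']
    rw [← Finset.sum_mul, hrs]
    ring
  rw [h2, h3] at h1
  have hn : (n : ℚ) + 1 ≠ 0 := by positivity
  exact mul_right_cancel₀ hn h1

theorem sum_zero {E : Matrix X X ℚ} (hE : Eᵀ = E) (h0 : ∀ x, ∑ y, E x y = 0) {x : X → ℤ}
    (hx : x ∈ lat E) : ∑ i, x i = 0 := by
  have h1 := mem_lat.1 hx
  have h2 : ∑ i, qv x i = 0 := by
    rw [← h1]
    simp only [mulVec, dotProduct]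
    rw [Finset.sum_comm]
    apply Finset.sum_eq_zero
    intro j _
    rw [← Finset.sum_mul]
    have h3 : ∑ i, E i j = 0 := by
      rw [← h0 j]
      exact Finset.sum_congr rfl fun i _ => (congrFun (congrFun hE j) i)
    rw [h3, zero_mul]
  simp only [qv] at h2
  exact_mod_cast h2

theorem sv_zero {E : Matrix X X ℚ} (hE : Eᵀ = E) (h0 : ∀ x, ∑ y, E x y = 0) {r : ℕ}
    (b : Fin r → lat E) (i : Fin r) : sv b i = 0 :=
  sum_zero hE h0 (b i).2

theorem one_mem {E : Matrix X X ℚ} (h1 : ∀ x, ∑ y, E x y = 1) : (fun _ => 1 : X → ℤ) ∈ lat E := by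
  rw [mem_lat]
  funext x
  simp only [qv, mulVec, dotProduct]
  push_cast
  simp only [mul_one]
  exact h1 x

section cases

variable [DecidableEq X] [DecidableEq Y] {E : Matrix X X ℚ} {E' : Matrix Y Y ℚ}
    {N : Matrix X Y ℤ} {n : ℕ}

omit [Fintype Y] [DecidableEq Y] [DecidableEq X] in
theorem Pr.det_ne {m : ℕ} {F : Matrix X X ℤ} (h : Pr E m F) {r : ℕ}
    (b : Module.Basis (Fin r) ℤ (lat E)) : (gr b).det ≠ 0 := by
  obtain ⟨q, hq1, hq⟩ := Nat.exists_infinite_primes (m + 1)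
  have h1 : ¬ q ∣ m := fun h2 => by
    have := Nat.le_of_dvd (Nat.pos_of_ne_zero h.pos) h2
    omega
  intro h0
  apply h.not_dvd b hq h1
  rw [h0]
  exact dvd_zero _

theorem le_A (hN : Inc N n) (h : Comp E E' N) {m : ℕ} {F : Matrix X X ℤ} (P : Pr E m F)
    (hE' : E'ᵀ = E') (h0 : ∀ x, ∑ y, E x y = 0) {r r' : ℕ}
    (b : Module.Basis (Fin r) ℤ (lat E)) (b' : Module.Basis (Fin r') ℤ (lat E')) : r ≤ r' := by
  obtain ⟨C, hC⟩ := h.mat P.symm hE' b b'
  have h1 := gram_eq hN b b' hC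
  have h2 : (Matrix.of fun i j => sv b i * sv b j : Matrix (Fin r) (Fin r) ℤ) = 0 := by
    ext i j
    simp [sv_zero P.symm h0]
  rw [h2, add_zero] at h1
  have h3 := Pool.Agent.TH905.PC.card_le_of_det (C * gr b') Cᵀ (by
    rw [h1, det_smul]
    exact mul_ne_zero (pow_ne_zero _ (by exact_mod_cast hN.npos.ne')) (P.det_ne b))
  simpa using h3

theorem caseA (hN : Inc N n) (h : Comp E E' N) {m m' : ℕ} {F : Matrix X X ℤ}
    {F' : Matrix Y Y ℤ} (P : Pr E m F) (P' : Pr E' m' F')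
    (h0 : ∀ x, ∑ y, E x y = 0) (h0' : ∀ x, ∑ y, E' x y = 0) {r r' : ℕ}
    (b : Module.Basis (Fin r) ℤ (lat E)) (b' : Module.Basis (Fin r') ℤ (lat E'))
    {p : ℕ} (hp : p.Prime) (hpm : ¬ p ∣ m) (hpm' : ¬ p ∣ m') {a u : ℕ} (ha : Odd a)
    (hu : ¬ p ∣ u) (hn : n = p ^ a * u) :
    ∃ t, r = 2 * t ∧ IsSquare ((-1) ^ t * (((gr b).det : ℤ) : ZMod p)) := by
  have hr : r = r' := le_antisymm (le_A hN h P P'.symm h0 b b')
    (le_A hN.dual (h.dual P.symm P'.symm) P' P.symm h0' b' b)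
  subst hr
  obtain ⟨C, hC⟩ := h.mat P.symm P'.symm b b'
  have h1 := gram_eq hN b b' hC
  have h2 : (Matrix.of fun i j => sv b i * sv b j : Matrix (Fin r) (Fin r) ℤ) = 0 := by
    ext i j
    simp [sv_zero P.symm h0]
  rw [h2, add_zero] at h1
  obtain ⟨t, h3, h4⟩ := Pool.Agent.W825.KV.simil_odd C (gr b') (gr b) (n : ℤ) p hp (gr_symm _)
    (gr_symm _) h1 ha (u := (u : ℤ)) (by exact_mod_cast hu) (by rw [hn]; push_cast; ring)
    (P'.not_dvd b' hp hpm') (P.not_dvd b hp hpm)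
  exact ⟨t, by simpa using h3, h4⟩

/-- the extended Gram matrix -/
def xg {r : ℕ} (G : Matrix (Fin r) (Fin r) ℤ) : Matrix (Fin r ⊕ Unit) (Fin r ⊕ Unit) ℤ :=
  Matrix.fromBlocks G 0 0 (-1)

theorem xg_det {r : ℕ} (G : Matrix (Fin r) (Fin r) ℤ) : (xg G).det = -G.det := by
  unfold xg
  rw [det_fromBlocks_zero₂₁]
  simp

theorem xg_symm {r : ℕ} {G : Matrix (Fin r) (Fin r) ℤ} (h : Gᵀ = G) : (xg G)ᵀ = xg G := by
  unfold xg
  rw [fromBlocks_transpose, h]
  simp

theorem ext_eq (hN : Inc N n) (h : Comp E E' N) (hE : Eᵀ = E)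
    (hE' : E'ᵀ = E') (h1' : ∀ x, ∑ y, E' x y = 1) {r r' : ℕ}
    (b : Module.Basis (Fin r) ℤ (lat E)) (b' : Module.Basis (Fin r') ℤ (lat E')) :
    ∃ A : Matrix (Fin r ⊕ Unit) (Fin r' ⊕ Unit) ℤ,
      A * xg (gr b') * Aᵀ = (n : ℤ) • xg (gr b) := by
  obtain ⟨C, hC⟩ := h.mat hE hE' b b'
  obtain ⟨u, hu⟩ := bm_rep b' (one_mem h1')
  have h1 := gram_eq hN b b' hC
  let S : Matrix (Fin r) Unit ℤ := Matrix.of fun i _ => sv b i
  let U : Matrix (Fin r') Unit ℤ := Matrix.of fun j _ => u j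
  have hU : (bm b')ᵀ * U = Matrix.of fun _ _ => 1 := by
    ext y j
    have h2 := congrFun hu y
    simp only [mul_apply, transpose_apply, of_apply, U]
    rw [← h2]
    simp only [vecMul, dotProduct]
    exact Finset.sum_congr rfl fun i _ => mul_comm _ _
  have hS : Matrix.of (fun i j => sv b i * sv b j) = S * Sᵀ := by
    ext i j
    simp [S, mul_apply]
  have e1 : C * gr b' * U = ((n : ℤ) + 1) • S := by
    have e2 : C * gr b' * U = C * bm b' * ((bm b')ᵀ * U) := by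
      unfold gr
      simp only [Matrix.mul_assoc]
    rw [e2, ← hC, hU]
    ext i j
    simp only [mul_apply, of_apply, mul_one, Matrix.smul_apply, smul_eq_mul, S, sv]
    rw [Finset.sum_comm]
    simp only [← Finset.mul_sum, hN.rs]
    rw [← Finset.sum_mul, mul_comm]
  have e1' : Uᵀ * gr b' * Cᵀ = ((n : ℤ) + 1) • Sᵀ := by
    have := congrArg Matrix.transpose e1
    rw [transpose_mul, transpose_mul, gr_symm, transpose_smul, ← Matrix.mul_assoc] at this
    exact this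
  have e3 : Uᵀ * gr b' * U = Matrix.of fun _ _ => (n : ℤ) ^ 2 + n + 1 := by
    have e2 : Uᵀ * gr b' * U = ((bm b')ᵀ * U)ᵀ * ((bm b')ᵀ * U) := by
      unfold gr
      rw [transpose_mul, transpose_transpose]
      simp only [Matrix.mul_assoc]
    rw [e2, hU]
    ext i j
    simp only [mul_apply, of_apply, transpose_apply, mul_one, Finset.sum_const, Finset.card_univ,
      nsmul_eq_mul]
    rw [hN.cy]
  let K : Matrix Unit Unit ℤ := Matrix.of fun _ _ => (n : ℤ) + 1
  have k1 : S * (-1 : Matrix Unit Unit ℤ) * Kᵀ = -(((n : ℤ) + 1) • S) := by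
    ext i j
    rw [Matrix.mul_neg, Matrix.mul_one, mul_apply, Finset.univ_unique, Finset.sum_singleton,
      Matrix.neg_apply, Matrix.neg_apply, Matrix.smul_apply, smul_eq_mul]
    simp only [transpose_apply, K, of_apply]
    have : S i default = S i j := rfl
    rw [this]
    ring
  have k2 : K * (-1 : Matrix Unit Unit ℤ) * Sᵀ = -(((n : ℤ) + 1) • Sᵀ) := by
    ext i j
    rw [Matrix.mul_neg, Matrix.mul_one, mul_apply, Finset.univ_unique, Finset.sum_singleton,
      Matrix.neg_apply, Matrix.neg_apply, Matrix.smul_apply, smul_eq_mul]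
    simp only [transpose_apply, K, of_apply]
    have : S j default = S j i := rfl
    rw [this]
    ring
  have k3 : K * (-1 : Matrix Unit Unit ℤ) * Kᵀ = Matrix.of fun _ _ => -(((n : ℤ) + 1) ^ 2) := by
    ext i j
    rw [Matrix.mul_neg, Matrix.mul_one, mul_apply, Finset.univ_unique, Finset.sum_singleton,
      Matrix.neg_apply]
    simp only [transpose_apply, K, of_apply]
    ring
  refine ⟨Matrix.fromBlocks C S Uᵀ K, ?_⟩
  unfold xg
  rw [fromBlocks_transpose, fromBlocks_multiply, fromBlocks_multiply, fromBlocks_smul]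
  simp only [Matrix.mul_zero, add_zero, zero_add, smul_zero, transpose_transpose]
  congr 1
  · rw [h1, hS, Matrix.mul_neg, Matrix.mul_one, Matrix.neg_mul, add_neg_cancel_right]
  · rw [e1, k1, add_neg_cancel]
  · rw [e1', k2, add_neg_cancel]
  · rw [e3, k3]
    ext i j
    have hij : i = j := rfl
    subst hij
    rw [Matrix.add_apply, of_apply, of_apply, Matrix.smul_apply, Matrix.neg_apply,
      Matrix.one_apply_eq, smul_eq_mul]
    ring

theorem le_B (hN : Inc N n) (h : Comp E E' N) {m : ℕ} {F : Matrix X X ℤ} (P : Pr E m F)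
    (hE' : E'ᵀ = E') (h1' : ∀ x, ∑ y, E' x y = 1) {r r' : ℕ}
    (b : Module.Basis (Fin r) ℤ (lat E)) (b' : Module.Basis (Fin r') ℤ (lat E')) : r ≤ r' := by
  obtain ⟨A, hA⟩ := ext_eq hN h P.symm hE' h1' b b'
  have h3 := Pool.Agent.TH905.PC.card_le_of_det (A * xg (gr b')) Aᵀ (by
    rw [hA, det_smul, xg_det]
    exact mul_ne_zero (pow_ne_zero _ (by exact_mod_cast hN.npos.ne'))
      (neg_ne_zero.2 (P.det_ne b)))
  simpa using h3

theorem caseB (hN : Inc N n) (h : Comp E E' N) {m m' : ℕ} {F : Matrix X X ℤ}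
    {F' : Matrix Y Y ℤ} (P : Pr E m F) (P' : Pr E' m' F')
    (h1 : ∀ x, ∑ y, E x y = 1) (h1' : ∀ x, ∑ y, E' x y = 1) {r r' : ℕ}
    (b : Module.Basis (Fin r) ℤ (lat E)) (b' : Module.Basis (Fin r') ℤ (lat E'))
    {p : ℕ} (hp : p.Prime) (hpm : ¬ p ∣ m) (hpm' : ¬ p ∣ m') {a u : ℕ} (ha : Odd a)
    (hu : ¬ p ∣ u) (hn : n = p ^ a * u) :
    ∃ t, r + 1 = 2 * t ∧ IsSquare ((-1) ^ t * (((-(gr b).det : ℤ)) : ZMod p)) := by
  have hr : r = r' := le_antisymm (le_B hN h P P'.symm h1' b b')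
    (le_B hN.dual (h.dual P.symm P'.symm) P' P.symm h1 b' b)
  subst hr
  obtain ⟨A, hA⟩ := ext_eq hN h P.symm P'.symm h1' b b'
  obtain ⟨t, h3, h4⟩ := Pool.Agent.W825.KV.simil_odd A (xg (gr b')) (xg (gr b)) (n : ℤ) p hp
    (xg_symm (gr_symm _)) (xg_symm (gr_symm _)) hA ha (u := (u : ℤ)) (by exact_mod_cast hu)
    (by rw [hn]; push_cast; ring)
    (by rw [xg_det, dvd_neg]; exact P'.not_dvd b' hp hpm')
    (by rw [xg_det, dvd_neg]; exact P.not_dvd b hp hpm)
  rw [xg_det] at h4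
  exact ⟨t, by simpa using h3, h4⟩

end cases

end inc

section rank

variable {X : Type} [Fintype X]

/-- `qv` as a linear map -/
def qvL (X : Type) : (X → ℤ) →ₗ[ℤ] (X → ℚ) where
  toFun := qv
  map_add' := by intro x y; funext i; simp [qv]
  map_smul' := by intro c x; funext i; simp [qv]

theorem Pr.rank_eq {E : Matrix X X ℚ} {m : ℕ} {F : Matrix X X ℤ} (h : Pr E m F) {r : ℕ}
    (b : Module.Basis (Fin r) ℤ (lat E)) : E.rank = r := by
  classical
  have hker : LinearMap.ker (qvL X) = ⊥ := LinearMap.ker_eq_bot.2 fun x y hxy => qv_inj hxy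
  have h1 : LinearIndependent ℤ (fun i => qvL X (b i : X → ℤ)) := by
    have h2 : LinearIndependent ℤ ((lat E).subtype ∘ b) :=
      b.linearIndependent.map' _ (Submodule.ker_subtype _)
    exact h2.map' _ hker
  have h2 : LinearIndependent ℚ (fun i => qvL X (b i : X → ℤ)) :=
    (LinearIndependent.iff_fractionRing ℤ ℚ).1 h1
  have h3 : Submodule.span ℚ (Set.range E.col) =
      Submodule.span ℚ (Set.range fun i => qvL X (b i : X → ℤ)) := by
    apply le_antisymm
    · rw [Submodule.span_le]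
      rintro _ ⟨j, rfl⟩
      have hm : (m : ℚ) ≠ 0 := by exact_mod_cast h.pos
      obtain ⟨c, hc⟩ := bm_rep b (h.fmem (Pi.single j 1))
      have e1 : qv (F *ᵥ (Pi.single j 1)) = (m : ℚ) • E.col j := by
        rw [h.fvec]
        congr 1
        funext i
        simp [qv, mulVec, dotProduct, Pi.single_apply]
      have e2 : E.col j = (m : ℚ)⁻¹ • qv (c ᵥ* bm b) := by
        rw [hc, e1, smul_smul, inv_mul_cancel₀ hm, one_smul]
      rw [e2]
      apply Submodule.smul_mem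
      have e3 : qv (c ᵥ* bm b) = ∑ i, (c i : ℚ) • qvL X (b i : X → ℤ) := by
        funext k
        rw [Finset.sum_apply]
        simp only [qv, vecMul, dotProduct, Pi.smul_apply, smul_eq_mul]
        push_cast
        rfl
      rw [e3]
      exact Submodule.sum_mem _ fun i _ =>
        Submodule.smul_mem _ _ (Submodule.subset_span ⟨i, rfl⟩)
    · rw [Submodule.span_le]
      rintro _ ⟨i, rfl⟩
      have e1 : qvL X (b i : X → ℤ) = ∑ j, (b i : X → ℤ) j • E.col j := by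
        have e2 : E *ᵥ qv (b i : X → ℤ) = qv (b i : X → ℤ) := mem_lat.1 (b i).2
        change qv (b i : X → ℤ) = _
        rw [← e2]
        funext k
        rw [Finset.sum_apply]
        simp only [mulVec, dotProduct, qv, Pi.smul_apply]
        refine Finset.sum_congr rfl fun j _ => ?_
        rw [zsmul_eq_mul, mul_comm]
        rfl
      change qvL X (b i : X → ℤ) ∈ _
      rw [e1]
      exact Submodule.sum_mem _ fun j _ =>
        Submodule.smul_of_tower_mem _ _ (Submodule.subset_span ⟨j, rfl⟩)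
  rw [Matrix.rank_eq_finrank_span_cols, h3, finrank_span_eq_card h2, Fintype.card_fin]

/-- a common denominator -/
theorem exists_pr {E : Matrix X X ℚ} (hs : Eᵀ = E) (hi : E * E = E) {S : ℕ → Prop}
    (hd : ∀ i j, ∀ q : ℕ, q.Prime → q ∣ (E i j).den → S q) :
    ∃ (m : ℕ) (F : Matrix X X ℤ), Pr E m F ∧ ∀ q : ℕ, q.Prime → q ∣ m → S q := by
  classical
  refine ⟨∏ i, ∏ j, (E i j).den, Matrix.of fun i j => ((∏ i, ∏ j, (E i j).den : ℕ) * E i j).num,
    ⟨hs, hi, ?_, ?_⟩, ?_⟩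
  · intro i j
    have h1 : (E i j).den ∣ ∏ i, ∏ j, (E i j).den :=
      (Finset.dvd_prod_of_mem _ (Finset.mem_univ j)).trans
        (Finset.dvd_prod_of_mem (fun i => ∏ j, (E i j).den) (Finset.mem_univ i))
    obtain ⟨k, hk⟩ := h1
    have h2 : ((∏ i, ∏ j, (E i j).den : ℕ) : ℚ) * E i j = ((k * (E i j).num : ℤ) : ℚ) := by
      rw [hk]
      push_cast
      have h3 := Rat.mul_den_eq_num (E i j)
      linear_combination (k : ℚ) * h3
    rw [of_apply, h2, Rat.num_intCast]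
  · exact Finset.prod_ne_zero_iff.2 fun i _ => Finset.prod_ne_zero_iff.2 fun j _ => (E i j).den_nz
  · intro q hq hqm
    obtain ⟨i, -, hqi⟩ := (Prime.dvd_finsetProd_iff (Nat.prime_iff.1 hq) _).1 hqm
    obtain ⟨j, -, hqj⟩ := (Prime.dvd_finsetProd_iff (Nat.prime_iff.1 hq) _).1 hqi
    exact hd i j q hq hqj

end rank

end Pool.Agent.E8helper69.PP
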