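import Mathlib
import Pool.Agent.E8helper69.Proj

set_option autoImplicit false

/-!
# Compatible orthogonal projections of a projective plane (the statement for a single plane)
-/

namespace Pool.Agent.E8helper69.PP

open Matrix Configuration Configuration.ProjectivePlane Pool.Agent.TH905.PC Pool.Agent.H634R3.PPC

/-- the arithmetic condition on the order -/
def ArK (k n : ℕ) : Prop := ArOK k.factorial n ∧
  ∃ A : Finset ℕ, k < A.card ∧ ∀ p ∈ A, p.Prime ∧ k < p ∧ p ∣ n ∧ ¬ p ^ 2 ∣ n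

/-- for fixed `k` the condition holds for almost all integers -/
theorem ark_negl (k : ℕ) : Negl (fun n => 1 ≤ n ∧ ¬ ArK k n) := by
  classical
  set M := (k + 2).factorial with hM
  have hM0 : M ≠ 0 := Nat.factorial_ne_zero _
  have hM2 : 2 ≤ M := by
    have : 2 ∣ M := Nat.dvd_factorial (by norm_num) (by omega)
    exact Nat.le_of_dvd (Nat.pos_of_ne_zero hM0) this
  set q := M * (k + 2) with hq
  have hq0 : q ≠ 0 := by positivity
  have : NeZero q := ⟨hq0⟩
  have hunit : ∀ j : ℕ, IsUnit (((1 + j * M : ℕ)) : ZMod q) := by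
    intro j
    rw [ZMod.isUnit_iff_coprime, hq]
    have h1 : Nat.Coprime (1 + j * M) M := by
      rw [Nat.coprime_add_mul_right_left]
      exact Nat.coprime_one_left M
    have h2 : (k + 2) ∣ M := Nat.dvd_factorial (by omega) le_rfl
    exact Nat.Coprime.mul_right h1 (h1.coprime_dvd_right h2)
  have h1 := negl_finset (Finset.range (k + 2)) (fun j n => 1 ≤ n ∧ ∀ p : ℕ, p.Prime →
    (p : ZMod q) = (((1 + j * M : ℕ)) : ZMod q) → p ∣ n → p ^ 2 ∣ n)
    (fun j _ => dens_class (hunit j))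
  refine Negl.mono ?_ ((ar_negl k.factorial (Nat.factorial_ne_zero k)).or h1)
  rintro n ⟨hn1, hn⟩
  by_contra hcon
  push Not at hcon
  obtain ⟨hc1, hc2⟩ := hcon
  apply hn
  refine ⟨hc1 hn1, ?_⟩
  have h2 : ∀ j : ℕ, ∃ p : ℕ, j < k + 2 → (p.Prime ∧
      (p : ZMod q) = (((1 + j * M : ℕ)) : ZMod q) ∧ p ∣ n ∧ ¬ p ^ 2 ∣ n) := by
    intro j
    by_cases hj : j < k + 2
    · obtain ⟨p, hp1, hp2, hp3, hp4⟩ := hc2 j (Finset.mem_range.2 hj) hn1
      exact ⟨p, fun _ => ⟨hp1, hp2, hp3, hp4⟩⟩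
    · exact ⟨0, fun h => absurd h hj⟩
  choose P hP using h2
  have hmod : ∀ j, j < k + 2 → P j ≡ 1 + j * M [MOD q] := fun j hj =>
    (ZMod.natCast_eq_natCast_iff _ _ _).1 (hP j hj).2.1
  refine ⟨(Finset.range (k + 2)).image P, ?_, ?_⟩
  · rw [Finset.card_image_of_injOn, Finset.card_range]
    · omega
    · intro i hi j hj hij
      have hi' : i < k + 2 := by simpa using hi
      have hj' : j < k + 2 := by simpa using hj
      have h3 : 1 + i * M ≡ 1 + j * M [MOD q] := ((hmod i hi').symm.trans (by rw [hij])).trans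
        (hmod j hj')
      have h4 : i * M ≡ j * M [MOD q] := Nat.ModEq.add_left_cancel' 1 h3
      rw [hq, mul_comm i, mul_comm j] at h4
      have h5 : i ≡ j [MOD (k + 2)] := Nat.ModEq.mul_left_cancel' hM0 h4
      rwa [Nat.ModEq, Nat.mod_eq_of_lt hi', Nat.mod_eq_of_lt hj'] at h5
  · intro p hp
    obtain ⟨j, hj, rfl⟩ := Finset.mem_image.1 hp
    have hj' : j < k + 2 := by simpa using hj
    obtain ⟨h3, -, h4, h5⟩ := hP j hj'
    refine ⟨h3, ?_, h4, h5⟩
    by_contra h6
    have h7 : P j ∣ M := Nat.dvd_factorial h3.pos (by omega)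
    have h8 : P j ≡ 1 + j * M [MOD M] := (hmod j hj').of_dvd (dvd_mul_right _ _)
    have h9 : P j ≡ 1 [MOD M] := h8.trans (by simp)
    have h10 : P j ≡ 1 [MOD (P j)] := h9.of_dvd h7
    have h11 : P j ∣ 1 := (Nat.modEq_zero_iff_dvd).1
      (h10.symm.trans ((Nat.modEq_zero_iff_dvd).2 dvd_rfl))
    exact h3.one_lt.ne' (Nat.dvd_one.1 h11)

section plane

variable {P L : Type} [Membership P L] [ProjectivePlane P L] [Fintype P] [Fintype L]

open Classical in
/-- the incidence matrix -/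
noncomputable def nz (P L : Type) [Membership P L] : Matrix P L ℤ :=
  Matrix.of fun p l => if p ∈ l then 1 else 0

theorem inc_plane [DecidableEq P] [DecidableEq L] : Inc (nz P L) (order P L) where
  row := by
    classical
    ext p q
    simp only [nz, mul_apply, of_apply, transpose_apply, Matrix.add_apply, Matrix.smul_apply,
      smul_eq_mul, ite_mul, one_mul, zero_mul]
    have h2 : ∀ l : L, (if p ∈ l then (if q ∈ l then (1 : ℤ) else 0) else 0) =
        if p ∈ l ∧ q ∈ l then 1 else 0 := fun l => by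
      by_cases h3 : p ∈ l <;> simp [h3]
    simp only [h2]
    have h4 := card_common_lines (P := P) (L := L) p q
    have h5 : (Finset.univ.filter (fun l : L => p ∈ l ∧ q ∈ l)).card =
      (if p = q then order P L else 0) + 1 := by convert h4
    rw [Finset.sum_boole, h5]
    by_cases hpq : p = q
    · subst hpq; simp
    · simp [hpq]
  col := by
    classical
    ext l m
    simp only [nz, mul_apply, of_apply, transpose_apply, Matrix.add_apply, Matrix.smul_apply,
      smul_eq_mul, ite_mul, one_mul, zero_mul]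
    have h2 : ∀ p : P, (if p ∈ l then (if p ∈ m then (1 : ℤ) else 0) else 0) =
        if p ∈ l ∧ p ∈ m then 1 else 0 := fun l => by
      split_ifs <;> simp_all
    simp only [h2]
    have h4 := card_common_points (P := P) (L := L) l m
    have h5 : (Finset.univ.filter (fun p : P => p ∈ l ∧ p ∈ m)).card =
      (if l = m then order P L else 0) + 1 := by convert h4
    rw [Finset.sum_boole, h5]
    by_cases hpq : l = m
    · subst hpq; simp
    · simp [hpq]
  rs := by
    intro p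
    classical
    have h1 := lineCount_eq (P := P) (L := L) p
    unfold lineCount at h1
    rw [Nat.card_eq_fintype_card, Fintype.card_subtype] at h1
    simp only [nz, of_apply]
    rw [Finset.sum_boole]
    have h5 : (Finset.univ.filter (fun l : L => p ∈ l)).card = order P L + 1 := by convert h1
    rw [h5]
    push_cast
    rfl
  cs := by
    intro l
    classical
    have h1 := pointCount_eq P l
    unfold pointCount at h1
    rw [Nat.card_eq_fintype_card, Fintype.card_subtype] at h1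
    simp only [nz, of_apply]
    rw [Finset.sum_boole]
    have h5 : (Finset.univ.filter (fun p : P => p ∈ l)).card = order P L + 1 := by convert h1
    rw [h5]
    push_cast
    rfl
  cx := by rw [card_points P L]; push_cast; rfl
  cy := by rw [card_lines P L]; push_cast; rfl
  npos := (one_lt_order P L).le

theorem not_dvd_fact {y p : ℕ} (hp : p.Prime) {m : ℕ} (hm : ∀ q : ℕ, q.Prime → q ∣ m → q ≤ y)
    (hpy : ¬ p ∣ y.factorial) : ¬ p ∣ m :=
  fun h => hpy (Nat.dvd_factorial hp.pos (hm p hp h))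

/-- The statement for a single plane, with a basis of the lattice. -/
theorem plane_proj {y : ℕ} (hn : ArOK y.factorial (order P L)) {E : Matrix P P ℚ}
    {E' : Matrix L L ℚ} (hs : Eᵀ = E) (hi : E * E = E)
    (hd : ∀ i j, ∀ q : ℕ, q.Prime → q ∣ (E i j).den → q ≤ y)
    (hs' : E'ᵀ = E') (hi' : E' * E' = E')
    (hd' : ∀ i j, ∀ q : ℕ, q.Prime → q ∣ (E' i j).den → q ≤ y)
    (hc : Comp E E' (nz P L)) {r : ℕ} (b : Module.Basis (Fin r) ℤ (lat E)) :
    (((∀ x, ∑ y, E x y = 0) ∧ r % 4 = 0) ∨ ((∀ x, ∑ y, E x y = 1) ∧ r % 4 = 1)) ∧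
      IsSquare (gr b).det := by
  classical
  obtain ⟨m, F, Pm, hm⟩ := exists_pr hs hi hd
  obtain ⟨m', F', Pm', hm'⟩ := exists_pr hs' hi' hd'
  obtain ⟨r', ⟨b'⟩⟩ := Submodule.nonempty_basis_of_pid (Pi.basisFun ℤ L) (lat E')
  have hN := inc_plane (P := P) (L := L)
  obtain ⟨c, hc01, hcE⟩ := ones hN hc hs hs' hi
  obtain ⟨c', hc01', hcE'⟩ := ones hN.dual (hc.dual hs hs') hs' hs hi'
  have hcc : c = c' := ones_same hN hc hcE hcE'
  subst hcc
  have hQ0 : (gr b).det ≠ 0 := Pm.det_ne b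
  have hQn : 0 ≤ (gr b).det := gr_map b
  set Q := (gr b).det.natAbs with hQ
  have hQc : ((Q : ℕ) : ℤ) = (gr b).det := Int.natAbs_of_nonneg hQn
  have hQne : Q ≠ 0 := Int.natAbs_ne_zero.2 hQ0
  have hQM : ∀ q : ℕ, q.Prime → q ∣ Q → q ∣ y.factorial := by
    intro q hq hqQ
    by_contra h
    apply Pm.not_dvd b hq (not_dvd_fact hq hm h)
    rw [← hQc]
    exact_mod_cast hqQ
  have hsq : IsSquare Q → IsSquare (gr b).det := by
    rintro ⟨s, hs⟩
    exact ⟨s, by rw [← hQc, hs]; push_cast; rfl⟩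
  obtain ⟨p0, hp0, hpM0, h10, h20⟩ := hn.1
  have hpM0' : ¬ p0 ∣ y.factorial := by
    intro h
    have h1 : p0 ∣ p0 + 1 := h.trans hpM0
    have h2 : p0 ∣ 1 := (Nat.dvd_add_right dvd_rfl).1 h1
    exact hp0.one_lt.ne' (Nat.dvd_one.1 h2)
  rcases hc01 with rfl | rfl
  · have key : ∀ p : ℕ, p.Prime → ¬ p ∣ y.factorial → p ∣ order P L → ¬ p ^ 2 ∣ order P L →
        ∃ t, r = 2 * t ∧ IsSquare ((-1) ^ t * (((gr b).det : ℤ) : ZMod p)) := by
      intro p hp hpM h1 h2
      obtain ⟨u, hu, hNu⟩ := exact_dvd h1 h2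
      exact caseA hN hc Pm Pm' hcE hcE' b b' hp (not_dvd_fact hp hm hpM) (not_dvd_fact hp hm' hpM)
        odd_one hu hNu
    obtain ⟨t, ht, -⟩ := key p0 hp0 hpM0' h10 h20
    have h3 := square_of hn hQne hQM t (by
      intro p hp hpM h1 h2
      obtain ⟨t', ht', hs⟩ := key p hp hpM h1 h2
      have : t' = t := by omega
      subst this
      rw [← hQc] at hs
      push_cast at hs ⊢
      exact hs)
    obtain ⟨k, hk2⟩ := h3.1
    exact ⟨Or.inl ⟨hcE, by omega⟩, hsq h3.2⟩
  · have key : ∀ p : ℕ, p.Prime → ¬ p ∣ y.factorial → p ∣ order P L → ¬ p ^ 2 ∣ order P L →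
        ∃ t, r + 1 = 2 * t ∧ IsSquare ((-1) ^ t * ((-(gr b).det : ℤ) : ZMod p)) := by
      intro p hp hpM h1 h2
      obtain ⟨u, hu, hNu⟩ := exact_dvd h1 h2
      exact caseB hN hc Pm Pm' hcE hcE' b b' hp (not_dvd_fact hp hm hpM) (not_dvd_fact hp hm' hpM)
        odd_one hu hNu
    obtain ⟨t, ht, -⟩ := key p0 hp0 hpM0' h10 h20
    have h3 := square_of hn hQne hQM (t + 1) (by
      intro p hp hpM h1 h2
      obtain ⟨t', ht', hs⟩ := key p hp hpM h1 h2
      have : t' = t := by omega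
      subst this
      rw [← hQc] at hs
      push_cast at hs ⊢
      rw [pow_succ]
      have e : (-1 : ZMod p) ^ t' * -1 * (Q : ZMod p) = (-1) ^ t' * -(Q : ZMod p) := by ring
      rw [e]
      exact hs)
    obtain ⟨k, hk2⟩ := h3.1
    exact ⟨Or.inr ⟨hcE, by omega⟩, hsq h3.2⟩

/-- The parity for a single plane, if few large primes divide the denominators. -/
theorem plane_par {y : ℕ} (hn : ArK y (order P L)) {E : Matrix P P ℚ}
    {E' : Matrix L L ℚ} (hs : Eᵀ = E) (hi : E * E = E) {T : Finset ℕ} (hT : T.card ≤ y)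
    (hd : ∀ i j, ∀ q : ℕ, q.Prime → q ∣ (E i j).den → q ≤ y ∨ q ∈ T)
    (hs' : E'ᵀ = E') (hi' : E' * E' = E')
    (hd' : ∀ i j, ∀ q : ℕ, q.Prime → q ∣ (E' i j).den → q ≤ y ∨ q ∈ T)
    (hc : Comp E E' (nz P L)) {r : ℕ} (b : Module.Basis (Fin r) ℤ (lat E)) :
    ((∀ x, ∑ y, E x y = 0) ∧ Even r) ∨ ((∀ x, ∑ y, E x y = 1) ∧ Odd r) := by
  classical
  obtain ⟨m, F, Pm, hm⟩ := exists_pr hs hi hd
  obtain ⟨m', F', Pm', hm'⟩ := exists_pr hs' hi' hd'
  obtain ⟨r', ⟨b'⟩⟩ := Submodule.nonempty_basis_of_pid (Pi.basisFun ℤ L) (lat E')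
  have hN := inc_plane (P := P) (L := L)
  obtain ⟨c, hc01, hcE⟩ := ones hN hc hs hs' hi
  obtain ⟨c', hc01', hcE'⟩ := ones hN.dual (hc.dual hs hs') hs' hs hi'
  have hcc : c = c' := ones_same hN hc hcE hcE'
  subst hcc
  obtain ⟨-, A, hA, hAp⟩ := hn
  obtain ⟨p, hpA, hpT⟩ : ∃ p ∈ A, p ∉ T := by
    by_contra h
    push Not at h
    have := Finset.card_le_card h
    omega
  obtain ⟨hp, hpy, h1, h2⟩ := hAp p hpA
  have hpm : ¬ p ∣ m := fun h => by
    rcases hm p hp h with h3 | h3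
    · omega
    · exact hpT h3
  have hpm' : ¬ p ∣ m' := fun h => by
    rcases hm' p hp h with h3 | h3
    · omega
    · exact hpT h3
  obtain ⟨u, hu, hNu⟩ := exact_dvd h1 h2
  rcases hc01 with rfl | rfl
  · obtain ⟨t, ht, -⟩ := caseA hN hc Pm Pm' hcE hcE' b b' hp hpm hpm' odd_one hu hNu
    exact Or.inl ⟨hcE, ⟨t, by omega⟩⟩
  · obtain ⟨t, ht, -⟩ := caseB hN hc Pm Pm' hcE hcE' b b' hp hpm hpm' odd_one hu hNu
    exact Or.inr ⟨hcE, ⟨t - 1, by omega⟩⟩

omit [Membership P L] [ProjectivePlane P L] [Fintype L] in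
theorem proj_rank {E : Matrix P P ℚ} (hs : Eᵀ = E) (hi : E * E = E) {r : ℕ}
    (b : Module.Basis (Fin r) ℤ (lat E)) : E.rank = r := by
  classical
  obtain ⟨m, F, Pm, hm⟩ := exists_pr hs hi (S := fun _ => True) (fun _ _ _ _ _ => trivial)
  exact Pm.rank_eq b

end plane

end Pool.Agent.E8helper69.PP
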