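import Mathlib
import Pool.Agent.E8helper69.ProjPl

set_option autoImplicit false

/-!
# Compatible orthogonal projections of a projective plane: tactical decompositions
-/

namespace Pool.Agent.E8helper69.PP

open Matrix Configuration Configuration.ProjectivePlane Pool.Agent.TH905.PC Pool.Agent.H634R3.PPC
  Finset

section avg

variable {X I : Type} [Fintype X] [Fintype I] [DecidableEq I]

/-- the size of the class -/
def csz (f : X → I) (i : I) : ℕ := (univ.filter fun x => f x = i).card

omit [Fintype I] in
theorem csz_pos {f : X → I} (x : X) : 0 < csz f (f x) :=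
  Finset.card_pos.2 ⟨x, by simp⟩

/-- the averaging matrix of the partition into the fibres of `f` -/
def av (f : X → I) : Matrix X X ℚ := Matrix.of fun x y => if f x = f y then (csz f (f x) : ℚ)⁻¹ else 0

omit [Fintype I] in
theorem av_symm (f : X → I) : (av f)ᵀ = av f := by
  ext x y
  simp only [av, transpose_apply, of_apply]
  by_cases h : f x = f y
  · rw [if_pos h, if_pos h.symm, h]
  · rw [if_neg h, if_neg (fun h' => h h'.symm)]

omit [Fintype I] in
theorem av_mulVec (f : X → I) (v : X → ℚ) (x : X) :
    (av f *ᵥ v) x = (csz f (f x) : ℚ)⁻¹ * ∑ y ∈ univ.filter (fun y => f y = f x), v y := by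
  simp only [av, mulVec, dotProduct, of_apply, ite_mul, zero_mul]
  rw [Finset.mul_sum, Finset.sum_filter]
  refine Finset.sum_congr rfl fun y _ => ?_
  by_cases h : f x = f y
  · rw [if_pos h, if_pos h.symm]
  · rw [if_neg h, if_neg (fun h' => h h'.symm)]

omit [Fintype I] in
theorem av_idem (f : X → I) : av f * av f = av f := by
  ext x z
  have h1 := av_mulVec f (fun y => av f y z) x
  have h2 : (av f * av f) x z = (av f *ᵥ (fun y => av f y z)) x := rfl
  rw [h2, h1]
  have h3 : ∀ y ∈ univ.filter (fun y => f y = f x), av f y z = av f x z := by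
    intro y hy
    have hy' : f y = f x := by simpa using hy
    simp only [av, of_apply, hy']
  rw [Finset.sum_congr rfl h3, Finset.sum_const, nsmul_eq_mul]
  have h4 : (csz f (f x) : ℚ) ≠ 0 := by exact_mod_cast (csz_pos x).ne'
  change (csz f (f x) : ℚ)⁻¹ * ((csz f (f x) : ℚ) * av f x z) = _
  rw [← mul_assoc, inv_mul_cancel₀ h4, one_mul]

omit [Fintype I] in
theorem av_den (f : X → I) {S : ℕ → Prop} (hf : ∀ x, ∀ q : ℕ, q.Prime → q ∣ csz f (f x) → S q) :
    ∀ i j, ∀ q : ℕ, q.Prime → q ∣ (av f i j).den → S q := by
  intro i j q hq hqd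
  by_cases h : f i = f j
  · apply hf i q hq
    have h1 : av f i j = (csz f (f i) : ℚ)⁻¹ := by
      simp only [av, of_apply]; rw [if_pos h]
    have h2 : (av f i j).den = csz f (f i) := by
      rw [h1, Rat.inv_natCast_den, if_neg (csz_pos i).ne']
    rwa [h2] at hqd
  · have h1 : av f i j = 0 := by
      simp only [av, of_apply]; rw [if_neg h]
    rw [h1] at hqd
    exact absurd (Nat.dvd_one.1 hqd) hq.one_lt.ne'

omit [Fintype I] in
theorem mem_av {f : X → I} {x : X → ℤ} : x ∈ lat (av f) ↔ ∀ i j, f i = f j → x i = x j := by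
  rw [mem_lat]
  constructor
  · intro h i j hij
    have h1 := congrFun h i
    have h2 := congrFun h j
    rw [av_mulVec] at h1 h2
    rw [hij, h2] at h1
    have h3 : ((x j : ℤ) : ℚ) = ((x i : ℤ) : ℚ) := h1
    exact_mod_cast h3.symm
  · intro h
    funext i
    rw [av_mulVec]
    have h3 : ∀ y ∈ univ.filter (fun y => f y = f i), qv x y = qv x i := by
      intro y hy
      have hy' : f y = f i := by simpa using hy
      simp only [qv, h y i hy']
    rw [Finset.sum_congr rfl h3, Finset.sum_const, nsmul_eq_mul]
    have h4 : (csz f (f i) : ℚ) ≠ 0 := by exact_mod_cast (csz_pos i).ne'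
    change (csz f (f i) : ℚ)⁻¹ * ((csz f (f i) : ℚ) * qv x i) = _
    rw [← mul_assoc, inv_mul_cancel₀ h4, one_mul]

/-- the lattice as the functions on the classes -/
noncomputable def avEquiv (f : X → I) (hf : Function.Surjective f) :
    lat (av f) ≃ₗ[ℤ] (I → ℤ) where
  toFun x := fun i => (x : X → ℤ) (Function.surjInv hf i)
  map_add' := by intro x y; rfl
  map_smul' := by intro c x; rfl
  invFun z := ⟨fun x => z (f x), mem_av.2 fun i j h => by rw [h]⟩
  left_inv := by
    intro x
    apply Subtype.ext
    funext i
    exact mem_av.1 x.2 _ _ (Function.surjInv_eq hf (f i))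
  right_inv := by
    intro z
    funext i
    change z (f (Function.surjInv hf i)) = z i
    rw [Function.surjInv_eq hf i]

/-- the basis of the indicator vectors of the classes -/
noncomputable def avBasis (f : X → I) (hf : Function.Surjective f) :
    Module.Basis (Fin (Fintype.card I)) ℤ (lat (av f)) :=
  Module.Basis.ofEquivFun ((avEquiv f hf).trans
    (LinearEquiv.funCongrLeft ℤ ℤ (Fintype.equivFin I).symm))

theorem avBasis_apply (f : X → I) (hf : Function.Surjective f) (k : Fin (Fintype.card I)) (x : X) :
    (avBasis f hf k : X → ℤ) x = if f x = (Fintype.equivFin I).symm k then 1 else 0 := by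
  unfold avBasis
  rw [Module.Basis.coe_ofEquivFun]
  change (Pi.single k 1 : Fin (Fintype.card I) → ℤ) ((Fintype.equivFin I) (f x)) = _
  rw [Pi.single_apply]
  by_cases h : f x = (Fintype.equivFin I).symm k
  · rw [if_pos h, if_pos (by rw [h, Equiv.apply_symm_apply])]
  · rw [if_neg h, if_neg (fun h' => h (by rw [← h', Equiv.symm_apply_apply]))]

theorem avBasis_gr (f : X → I) (hf : Function.Surjective f) :
    (gr (avBasis f hf)).det = ∏ i, (csz f i : ℤ) := by
  have h1 : gr (avBasis f hf) = Matrix.diagonal fun k => (csz f ((Fintype.equivFin I).symm k) : ℤ) := by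
    ext k l
    unfold gr
    simp only [mul_apply, transpose_apply, bm, of_apply, avBasis_apply]
    by_cases hkl : k = l
    · subst hkl
      rw [diagonal_apply_eq]
      simp only [ite_mul, one_mul, zero_mul]
      have : ∀ x, (if f x = (Fintype.equivFin I).symm k then
          (if f x = (Fintype.equivFin I).symm k then (1 : ℤ) else 0) else 0) =
          if f x = (Fintype.equivFin I).symm k then 1 else 0 := fun x => by split_ifs <;> rfl
      simp only [this]
      rw [Finset.sum_boole]
      rfl
    · rw [diagonal_apply_ne _ hkl]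
      apply Finset.sum_eq_zero
      intro x _
      by_cases h : f x = (Fintype.equivFin I).symm k
      · have : ¬ f x = (Fintype.equivFin I).symm l := by
          rw [h]
          intro h'
          exact hkl ((Fintype.equivFin I).symm.injective h')
        rw [if_neg this, mul_zero]
      · rw [if_neg h, zero_mul]
  rw [h1, det_diagonal]
  exact Fintype.prod_equiv (Fintype.equivFin I).symm _ _ fun k => rfl

end avg

section plane

variable {P L : Type} [Membership P L] [ProjectivePlane P L] [Fintype P] [Fintype L]
variable {I J : Type} [Fintype I] [Fintype J] [DecidableEq I] [DecidableEq J]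

open Classical in
omit [ProjectivePlane P L] [Fintype I] [Fintype J] in
/-- the averaging matrices of a tactical decomposition are compatible -/
theorem tac_comp (f : P → I) (g : L → J)
    (h1 : ∀ l l' : L, g l = g l' → ∀ i : I, (univ.filter fun p : P => f p = i ∧ p ∈ l).card =
      (univ.filter fun p : P => f p = i ∧ p ∈ l').card)
    (h2 : ∀ p p' : P, f p = f p' → ∀ j : J, (univ.filter fun l : L => g l = j ∧ p ∈ l).card =
      (univ.filter fun l : L => g l = j ∧ p' ∈ l).card) :
    Comp (av f) (av g) (nz P L) := by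
  unfold Comp
  ext p l
  have e1 : (av f * (nz P L).map (fun z : ℤ => (z : ℚ))) p l =
      (csz f (f p) : ℚ)⁻¹ * ((univ.filter fun q : P => f q = f p ∧ q ∈ l).card : ℚ) := by
    have h3 := av_mulVec f (fun q => (nz P L).map (fun z : ℤ => (z : ℚ)) q l) p
    have h4 : (av f * (nz P L).map (fun z : ℤ => (z : ℚ))) p l =
      (av f *ᵥ (fun q => (nz P L).map (fun z : ℤ => (z : ℚ)) q l)) p := rfl
    rw [h4, h3]
    congr 1
    simp only [nz, Matrix.map_apply, of_apply]
    push_cast
    rw [Finset.sum_boole, Finset.filter_filter]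
  have e2 : ((nz P L).map (fun z : ℤ => (z : ℚ)) * av g) p l =
      (csz g (g l) : ℚ)⁻¹ * ((univ.filter fun m : L => g m = g l ∧ p ∈ m).card : ℚ) := by
    have h3 := av_mulVec g (fun m => (nz P L).map (fun z : ℤ => (z : ℚ)) p m) l
    have h4 : ((nz P L).map (fun z : ℤ => (z : ℚ)) * av g) p l =
      (av g *ᵥ (fun m => (nz P L).map (fun z : ℤ => (z : ℚ)) p m)) l := by
      simp only [mul_apply, mulVec, dotProduct]
      refine Finset.sum_congr rfl fun m _ => ?_
      rw [mul_comm, ← congrFun (congrFun (av_symm g) l) m, transpose_apply]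
    rw [h4, h3]
    congr 1
    simp only [nz, Matrix.map_apply, of_apply]
    push_cast
    rw [Finset.sum_boole, Finset.filter_filter]
  rw [e1, e2]
  -- double counting of the flags between the classes
  have e3 : csz g (g l) * (univ.filter fun q : P => f q = f p ∧ q ∈ l).card =
      csz f (f p) * (univ.filter fun m : L => g m = g l ∧ p ∈ m).card := by
    have h3 : ∑ m ∈ univ.filter (fun m : L => g m = g l),
        (univ.filter fun q : P => f q = f p ∧ q ∈ m).card =
        csz g (g l) * (univ.filter fun q : P => f q = f p ∧ q ∈ l).card := by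
      rw [Finset.sum_congr rfl (fun m hm => h1 m l (by simpa using hm) (f p)), Finset.sum_const,
        smul_eq_mul]
      rfl
    have h4 : ∑ q ∈ univ.filter (fun q : P => f q = f p),
        (univ.filter fun m : L => g m = g l ∧ q ∈ m).card =
        csz f (f p) * (univ.filter fun m : L => g m = g l ∧ p ∈ m).card := by
      rw [Finset.sum_congr rfl (fun q hq => h2 q p (by simpa using hq) (g l)), Finset.sum_const,
        smul_eq_mul]
      rfl
    rw [← h3, ← h4]
    have h5 : ∀ m : L, (univ.filter fun q : P => f q = f p ∧ q ∈ m).card =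
        ∑ q ∈ univ.filter (fun q : P => f q = f p), if q ∈ m then 1 else 0 := by
      intro m
      rw [← Finset.filter_filter, Finset.card_filter]
    have h6 : ∀ q : P, (univ.filter fun m : L => g m = g l ∧ q ∈ m).card =
        ∑ m ∈ univ.filter (fun m : L => g m = g l), if q ∈ m then 1 else 0 := by
      intro m
      rw [← Finset.filter_filter, Finset.card_filter]
    simp only [h5, h6]
    rw [Finset.sum_comm]
  have h7 : (csz f (f p) : ℚ) ≠ 0 := by exact_mod_cast (csz_pos p).ne'
  have h8 : (csz g (g l) : ℚ) ≠ 0 := by exact_mod_cast (csz_pos l).ne'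
  have h9 := congrArg (fun z : ℕ => (z : ℚ)) e3
  push_cast at h9
  field_simp
  linear_combination h9

omit [Fintype I] in
/-- the averaging matrix fixes the vector of ones -/
theorem av_one (f : P → I) (h : ∀ x, ∑ y, av f x y = 0) (p : P) : False := by
  have h6 := h p
  have h7 := av_mulVec f (fun _ => 1) p
  rw [Finset.sum_const, nsmul_eq_mul, mul_one] at h7
  have h8 : (csz f (f p) : ℚ) ≠ 0 := by exact_mod_cast (csz_pos p).ne'
  change (av f *ᵥ (fun _ => 1)) p = (csz f (f p) : ℚ)⁻¹ * (csz f (f p) : ℚ) at h7
  rw [inv_mul_cancel₀ h8] at h7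
  simp only [mulVec, dotProduct, mul_one] at h7
  rw [h6] at h7
  exact zero_ne_one h7

open Classical in
omit [Fintype J] in
/-- The statement on tactical decompositions for a single plane. -/
theorem plane_tac {y : ℕ} (hn : ArOK y.factorial (order P L)) (f : P → I) (g : L → J)
    (hf : Function.Surjective f)
    (h1 : ∀ l l' : L, g l = g l' → ∀ i : I, (univ.filter fun p : P => f p = i ∧ p ∈ l).card =
      (univ.filter fun p : P => f p = i ∧ p ∈ l').card)
    (h2 : ∀ p p' : P, f p = f p' → ∀ j : J, (univ.filter fun l : L => g l = j ∧ p ∈ l).card =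
      (univ.filter fun l : L => g l = j ∧ p' ∈ l).card)
    (h3 : ∀ x, ∀ q : ℕ, q.Prime → q ∣ csz f (f x) → q ≤ y)
    (h4 : ∀ x, ∀ q : ℕ, q.Prime → q ∣ csz g (g x) → q ≤ y) :
    Fintype.card I % 4 = 1 ∧ IsSquare (∏ i, csz f i) := by
  have h := plane_proj hn (av_symm f) (av_idem f) (av_den f h3) (av_symm g) (av_idem g)
    (av_den g h4) (tac_comp f g h1 h2) (avBasis f hf)
  rw [avBasis_gr] at h
  obtain ⟨h5, s, hs⟩ := h
  refine ⟨?_, s.natAbs, ?_⟩
  · rcases h5 with h5 | h5
    · exfalso
      have hP : 0 < Fintype.card P := by rw [card_points P L]; positivity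
      obtain ⟨p⟩ := Fintype.card_pos_iff.1 hP
      exact av_one f h5.1 p
    · exact h5.2
  · have := congrArg Int.natAbs hs
    rw [Int.natAbs_mul] at this
    rw [← this]
    rw [← Int.natAbs_natCast (∏ i, csz f i)]
    push_cast
    rfl

open Classical in
omit [Fintype J] in
/-- The parity of the number of classes of a tactical decomposition for a single plane. -/
theorem plane_tac_par {y : ℕ} (hn : ArK y (order P L)) (f : P → I) (g : L → J)
    (hf : Function.Surjective f) {T : Finset ℕ} (hT : T.card ≤ y)
    (h1 : ∀ l l' : L, g l = g l' → ∀ i : I, (univ.filter fun p : P => f p = i ∧ p ∈ l).card =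
      (univ.filter fun p : P => f p = i ∧ p ∈ l').card)
    (h2 : ∀ p p' : P, f p = f p' → ∀ j : J, (univ.filter fun l : L => g l = j ∧ p ∈ l).card =
      (univ.filter fun l : L => g l = j ∧ p' ∈ l).card)
    (h3 : ∀ x, ∀ q : ℕ, q.Prime → q ∣ csz f (f x) → q ≤ y ∨ q ∈ T)
    (h4 : ∀ x, ∀ q : ℕ, q.Prime → q ∣ csz g (g x) → q ≤ y ∨ q ∈ T) :
    Odd (Fintype.card I) := by
  rcases plane_par hn (av_symm f) (av_idem f) hT (av_den f h3) (av_symm g) (av_idem g)
    (av_den g h4) (tac_comp f g h1 h2) (avBasis f hf) with h5 | h5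
  · exfalso
    have hP : 0 < Fintype.card P := by rw [card_points P L]; positivity
    obtain ⟨p⟩ := Fintype.card_pos_iff.1 hP
    exact av_one f h5.1 p
  · exact h5.2

end plane

end Pool.Agent.E8helper69.PP
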